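import Pool.Agent.W495.TA.Stms

/-! The decomposition of balanced families (`S_induct`). -/

set_option autoImplicit false

namespace Pool.Agent.W928.TA

open Pool.Agent.W495.TA Function

section closure

variable {G : Type} {Q : (κ : Type) → (κ → G → ℤ) → Prop}

lemma cancel_two (hQ : Closed G Q) (hC : Cancel G Q) {ι : Type} [Finite ι] (u : ι → G → ℤ) (m : ℕ)
    (h : Q (ι ⊕ Fin (m + 2)) (Sum.elim u fun _ => 0)) :
    Q (ι ⊕ Fin m) (Sum.elim u fun _ => 0) := by
  apply hC
  refine hQ.reindex _ _ ((Equiv.sumCongr (Equiv.refl ι) finSumFinEquiv.symm).trans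
    (Equiv.sumAssoc ι (Fin m) (Fin 2)).symm) _ _ ?_ h
  intro k
  rcases k with k | k
  · rfl
  · obtain ⟨k', rfl⟩ := finSumFinEquiv.surjective k
    rcases k' with k' | k' <;> simp

lemma cancel_many (hQ : Closed G Q) (hC : Cancel G Q) {ι : Type} [Finite ι] (u : ι → G → ℤ)
    (m n : ℕ) (h : Q (ι ⊕ Fin (m + 2 * n)) (Sum.elim u fun _ => 0)) :
    Q (ι ⊕ Fin m) (Sum.elim u fun _ => 0) := by
  induction n with
  | zero => exact h
  | succ n ih => exact ih (cancel_two hQ hC u _ h)

lemma of_sum_zero (hQ : Closed G Q) {ι : Type} [Finite ι] (u : ι → G → ℤ)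
    (h : Q (ι ⊕ Fin 0) (Sum.elim u fun _ => 0)) : Q ι u := by
  refine hQ.reindex _ _ (Equiv.sumEmpty ι (Fin 0)) _ _ ?_ h
  rintro (k | k)
  · rfl
  · exact k.elim0

/-- two copies -/
lemma double (hQ : Closed G Q) (hC : Cancel G Q) {ι : Type} [Finite ι] (u : ι → G → ℤ)
    (h : Q (ι ⊕ Fin 1) (Sum.elim u fun _ => 0)) : Q (ι ⊕ ι) (Sum.elim u u) := by
  apply hC
  have h2 := hQ.sum _ _ _ _ h h
  refine hQ.reindex _ _ ((Equiv.sumSumSumComm ι (Fin 1) ι (Fin 1)).trans
    (Equiv.sumCongr (Equiv.refl (ι ⊕ ι)) finSumFinEquiv)) _ _ ?_ h2
  rintro ((k | k) | (k | k)) <;> rfl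

lemma split (hQ : Closed G Q) (T : (G → ℤ) → Prop) {κ : Type} [Fintype κ] (t : κ → G → ℤ)
    (IH : ∀ (κ' : Type) [Fintype κ'] (t' : κ' → G → ℤ), Fintype.card κ' < Fintype.card κ →
      (∀ k, T (t' k)) → (∀ g, ∑ k, t' k g = 0) → Even (Fintype.card κ') → Q κ' t')
    (hT : ∀ k, T (t k)) (hsum : ∀ g, ∑ k, t k g = 0) (hev : Even (Fintype.card κ))
    {ι : Type} [Fintype ι] [Nonempty ι] (u : ι → G → ℤ) (j : ι → κ) (hj : Injective j)
    (hju : ∀ i, t (j i) = u i) (hu : ∀ g, ∑ i, u i g = 0) (hι : Even (Fintype.card ι))
    (hQu : Q ι u) : Q κ t := by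
  classical
  let R : Type := {k : κ // k ∉ Set.range j}
  let e : ι ⊕ R ≃ κ :=
    ((Equiv.ofInjective j hj).sumCongr (Equiv.refl _)).trans (Equiv.sumCompl (· ∈ Set.range j))
  have he1 : ∀ i, e (Sum.inl i) = j i := fun i => rfl
  have he2 : ∀ i : R, e (Sum.inr i) = i.1 := fun i => rfl
  have hcard : Fintype.card ι + Fintype.card R = Fintype.card κ := by
    rw [← Fintype.card_sum]
    exact Fintype.card_congr e
  have hι0 : 0 < Fintype.card ι := Fintype.card_pos
  have hR : Q R (fun i => t i.1) := by
    refine IH R (fun i => t i.1) (by omega) (fun k => hT _) (fun g => ?_) ?_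
    · have h1 := hsum g
      rw [← e.sum_comp, Fintype.sum_sum_type] at h1
      simp only [he1, he2, hju] at h1
      have h2 := hu g
      linarith
    · rw [← hcard, Nat.even_add] at hev
      exact hev.1 hι
  refine hQ.reindex _ _ e _ _ ?_ (hQ.sum _ _ _ _ hQu hR)
  rintro (i | i)
  · rw [he1, hju]; rfl
  · rw [he2]; rfl

end closure

section action

set_option linter.unusedSectionVars false

variable {G X : Type} [Group G] [Fintype G] [Fintype X] [MulAction G X] {c : G}

lemma nf_smul (D : Subgroup G) (ε : X → ℤ) (x : X) (g h : G) :
    nf D ε (g • x) h = nf D ε x (h * g) := by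
  unfold nf
  refine Finset.sum_congr rfl (fun d _ => ?_)
  rw [mul_smul]

lemma nf_c (hS : Setting G X c) (D : Subgroup G) {ε : X → ℤ} (hε : IsSign c ε) (x : X) :
    nf D ε (c • x) = -nf D ε x := by
  funext g
  rw [Pi.neg_apply]
  unfold nf
  rw [← Finset.sum_neg_distrib]
  refine Finset.sum_congr rfl (fun d _ => ?_)
  have h1 : d • g • c • x = c • d • g • x := by
    rw [← mul_smul g c x, ← hS.comm g, mul_smul c g x, ← mul_smul d c, ← hS.comm d, mul_smul c d]
  rw [h1, hε.odd]
  split_ifs <;> simp

lemma c_invol (hS : Setting G X c) (x : X) : c • c • x = x := by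
  rw [← mul_smul, hS.sq, one_smul]

end action

theorem induct : S_induct := by
  intro hstruct hflip G X _ _ _ _ c hS D ε hε hcard Q hQ hweil κ hκ t
  classical
  induction hN : Fintype.card κ using Nat.strong_induction_on generalizing κ with
  | _ N ih =>
  subst hN
  intro hT hsum hev
  have IH : ∀ (κ' : Type) [Fintype κ'] (t' : κ' → G → ℤ), Fintype.card κ' < Fintype.card κ →
      (∀ k, t' k = 0 ∨ ∃ x : X, t' k = nf D ε x) → (∀ g, ∑ k, t' k g = 0) →
      Even (Fintype.card κ') → Q κ' t' := by
    intro κ' _ t' hlt h1 h2 h3
    exact ih _ hlt κ' t' rfl h1 h2 h3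
  -- empty
  by_cases hemp : IsEmpty κ
  · exact hQ.empty κ t
  -- complementary pair
  by_cases hpair : ∃ k l, k ≠ l ∧ t l = -t k
  · obtain ⟨k, l, hkl, htl⟩ := hpair
    refine split hQ (fun f => f = 0 ∨ ∃ x : X, f = nf D ε x) t IH hT hsum hev
      (![t k, -t k]) (![k, l]) ?_ ?_ ?_ ?_ (hQ.pair (t k))
    · intro a b hab
      fin_cases a <;> fin_cases b <;> simp_all
    · intro i
      fin_cases i
      · rfl
      · exact htl
    · intro g
      simp [Fin.sum_univ_two]
    · simp
  · have hnp : ∀ k l, k ≠ l → t l ≠ -t k := fun k l h1 h2 => hpair ⟨k, l, h1, h2⟩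
    set cnt : (G → ℤ) → ℕ := fun f => (Finset.univ.filter fun k => t k = f).card with hcnt
    have cnt_pos : ∀ k, 0 < cnt (t k) := by
      intro k
      rw [hcnt]
      exact Finset.card_pos.2 ⟨k, by simp⟩
    have cnt_pos' : ∀ f, 0 < cnt f → ∃ k, t k = f := by
      intro f hf
      obtain ⟨k, hk⟩ := Finset.card_pos.1 hf
      exact ⟨k, by simpa using hk⟩
    -- not both f and -f occur when f is nonzero
    have cnt_neg : ∀ f, f ≠ 0 → cnt f = 0 ∨ cnt (-f) = 0 := by
      intro f hf
      by_contra h
      push Not at h
      obtain ⟨k, hk⟩ := cnt_pos' f (Nat.pos_of_ne_zero h.1)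
      obtain ⟨l, hl⟩ := cnt_pos' (-f) (Nat.pos_of_ne_zero h.2)
      by_cases hkl : k = l
      · subst hkl
        rw [hk] at hl
        apply hf
        funext g
        have := congrFun hl g
        simp only [Pi.neg_apply] at this
        simp only [Pi.zero_apply]
        linarith
      · exact hnp k l hkl (by rw [hk, hl])
    let a : X → ℤ := fun x => (cnt (nf D ε x) : ℤ) - cnt (-nf D ε x)
    have ha : ∀ x, a x = (cnt (nf D ε x) : ℤ) - cnt (-nf D ε x) := fun x => rfl
    have ha_odd : ∀ x, a (c • x) = -a x := by
      intro x
      rw [ha, ha, nf_c hS D hε, neg_neg]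
      ring
    have ha_fun : ∀ x y, nf D ε x = nf D ε y → a x = a y := by
      intro x y h
      rw [ha, ha, h]
    -- fibres of nf have constant size
    have hfib : ∀ x y : X, (Finset.univ.filter fun z => nf D ε z = nf D ε x).card =
        (Finset.univ.filter fun z => nf D ε z = nf D ε y).card := by
      intro x y
      obtain ⟨g, rfl⟩ := hS.trans x y
      refine Finset.card_bij' (fun z _ => g • z) (fun z _ => g⁻¹ • z) ?_ ?_ ?_ ?_
      · intro z hz
        simp only [Finset.mem_filter, Finset.mem_univ, true_and] at hz ⊢
        funext h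
        rw [nf_smul, nf_smul, hz]
      · intro z hz
        simp only [Finset.mem_filter, Finset.mem_univ, true_and] at hz ⊢
        funext h
        have h1 := congrFun hz (h * g⁻¹)
        rw [nf_smul] at h1 ⊢
        rw [h1, mul_assoc, inv_mul_cancel, mul_one]
      · intro z _
        exact inv_smul_smul g z
      · intro z _
        exact smul_inv_smul g z
    have ha_rel : ∀ g, ∑ x, a x * nf D ε x g = 0 := by
      intro g
      -- the substitution x ↦ c x
      let ce : X ≃ X := ⟨fun x => c • x, fun x => c • x, c_invol hS, c_invol hS⟩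
      have h1 : ∑ x, (cnt (-nf D ε x) : ℤ) * nf D ε x g = -∑ x, (cnt (nf D ε x) : ℤ) * nf D ε x g := by
        rw [← ce.sum_comp, ← Finset.sum_neg_distrib]
        refine Finset.sum_congr rfl (fun x _ => ?_)
        change (cnt (-nf D ε (c • x)) : ℤ) * nf D ε (c • x) g = _
        rw [nf_c hS D hε, neg_neg, Pi.neg_apply]
        ring
      have h2 : ∑ x, a x * nf D ε x g = 2 * ∑ x, (cnt (nf D ε x) : ℤ) * nf D ε x g := by
        have : ∀ x, a x * nf D ε x g =
            (cnt (nf D ε x) : ℤ) * nf D ε x g - (cnt (-nf D ε x) : ℤ) * nf D ε x g := by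
          intro x; rw [ha]; ring
        rw [Finset.sum_congr rfl (fun x _ => this x), Finset.sum_sub_distrib, h1]
        ring
      have h3 : ∑ x, (cnt (nf D ε x) : ℤ) * nf D ε x g =
          ∑ k, ((Finset.univ.filter fun z => nf D ε z = t k).card : ℤ) * t k g := by
        have e1 : ∀ x, (cnt (nf D ε x) : ℤ) * nf D ε x g =
            ∑ k, if nf D ε x = t k then t k g else 0 := by
          intro x
          rw [hcnt]
          simp only [Finset.card_filter, Nat.cast_sum, Nat.cast_ite, Nat.cast_one, Nat.cast_zero,
            Finset.sum_mul]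
          refine Finset.sum_congr rfl (fun k _ => ?_)
          by_cases h : t k = nf D ε x
          · rw [if_pos h, if_pos h.symm, h]; ring
          · rw [if_neg h, if_neg (fun h' => h h'.symm)]; ring
        rw [Finset.sum_congr rfl (fun x _ => e1 x), Finset.sum_comm]
        refine Finset.sum_congr rfl (fun k _ => ?_)
        simp only [Finset.card_filter, Nat.cast_sum, Nat.cast_ite, Nat.cast_one, Nat.cast_zero,
          Finset.sum_mul]
        refine Finset.sum_congr rfl (fun x _ => ?_)
        split_ifs <;> ring
      rw [h2, h3]
      by_cases hX : Nonempty X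
      · obtain ⟨x0⟩ := hX
        have e2 : ∀ k, ((Finset.univ.filter fun z => nf D ε z = t k).card : ℤ) * t k g =
            ((Finset.univ.filter fun z => nf D ε z = nf D ε x0).card : ℤ) * t k g := by
          intro k
          rcases hT k with h | ⟨x, hx⟩
          · rw [h]; simp
          · rw [hx, hfib x x0]
        rw [Finset.sum_congr rfl (fun k _ => e2 k), ← Finset.mul_sum, hsum g]
        ring
      · have : ∀ k, ((Finset.univ.filter fun z => nf D ε z = t k).card : ℤ) * t k g = 0 := by
          intro k
          rcases hT k with h | ⟨x, hx⟩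
          · rw [h]; simp
          · exact absurd ⟨x⟩ hX
        rw [Finset.sum_congr rfl (fun k _ => this k)]
        simp
    have key := hstruct G X c hS D ε hε hcard a ha_odd ha_fun ha_rel
    -- a = 0 is impossible
    have ha0 : a ≠ 0 := by
      intro h0
      have hall : ∀ k, t k = 0 := by
        intro k
        by_contra hk
        rcases hT k with h | ⟨x, hx⟩
        · exact hk h
        · have h1 := congrFun h0 x
          rw [ha, ← hx] at h1
          have h2 := cnt_pos k
          simp only [Pi.zero_apply] at h1
          rcases cnt_neg (t k) hk with h3 | h3 <;> omega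
      have hsub : Subsingleton κ := by
        refine ⟨fun k l => ?_⟩
        by_contra hkl
        exact hnp k l hkl (by rw [hall, hall, neg_zero])
      rw [not_isEmpty_iff] at hemp
      obtain ⟨k⟩ := hemp
      have h1 : Fintype.card κ = 1 := Fintype.card_eq_one_iff.2 ⟨k, fun l => Subsingleton.elim _ _⟩
      rw [h1] at hev
      exact absurd hev (by decide)
    obtain ⟨hinj, hsemi⟩ : Injective (nf (X := X) D ε) ∧ Semi G a := by
      rcases key with h | h
      · exact absurd h ha0
      · exact h
    -- nf x is never zero
    have hnf0 : ∀ x, nf D ε x ≠ 0 := by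
      intro x hx
      apply hS.ne x
      apply hinj
      rw [nf_c hS D hε, hx, neg_zero]
    obtain ⟨x0, hx0⟩ : ∃ x, a x ≠ 0 := by
      by_contra h
      push Not at h
      exact ha0 (funext h)
    have habs : ∀ x, |a x| = |a x0| := by
      intro x
      obtain ⟨g, rfl⟩ := hS.trans x0 x
      rcases hsemi g with h | h
      · rw [h]
      · rw [h, abs_neg]
    set m : ℤ := |a x0| with hm
    have hmpos : 0 < m := abs_pos.2 hx0
    have hane : ∀ x, a x ≠ 0 := by
      intro x hx
      have := habs x
      rw [hx, abs_zero] at this
      omega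
    let s : X → ℤ := fun x => if 0 < a x then 1 else -1
    have hs1 : ∀ x, s x = 1 ↔ 0 < a x := by
      intro x
      change (if 0 < a x then (1:ℤ) else -1) = 1 ↔ _
      split_ifs with h
      · simp [h]
      · simp [h]
    have has : ∀ x, a x = m * s x := by
      intro x
      change a x = m * (if 0 < a x then (1:ℤ) else -1)
      rw [← habs x]
      split_ifs with h
      · rw [abs_of_pos h, mul_one]
      · rw [abs_of_nonpos (not_lt.1 h)]; ring
    have hsign : IsSign c s := by
      refine ⟨fun x => ?_, fun x => ?_⟩
      · change (if 0 < a x then (1:ℤ) else -1) = 1 ∨ (if 0 < a x then (1:ℤ) else -1) = -1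
        split_ifs <;> simp
      · have h1 := ha_odd x
        rw [has, has, ← mul_neg] at h1
        exact mul_left_cancel₀ hmpos.ne' h1
    have hssemi : Semi G s := by
      intro g
      rcases hsemi g with h | h
      · left
        intro x
        have := h x
        rw [has, has] at this
        exact mul_left_cancel₀ hmpos.ne' this
      · right
        intro x
        have := h x
        rw [has, has, ← mul_neg] at this
        exact mul_left_cancel₀ hmpos.ne' this
    have hsrel : ∀ g, ∑ x, s x * nf D ε x g = 0 := by
      intro g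
      have h1 := ha_rel g
      have h2 : ∑ x, a x * nf D ε x g = m * ∑ x, s x * nf D ε x g := by
        rw [Finset.mul_sum]
        refine Finset.sum_congr rfl (fun x _ => ?_)
        rw [has]; ring
      rw [h2] at h1
      rcases mul_eq_zero.1 h1 with h | h
      · omega
      · exact h
    obtain ⟨ε', r, u, hε', hnf', hr, hu, hbal⟩ := hflip G X c hS D ε hε hcard hinj s hsign hssemi hsrel
    obtain ⟨hQP, hcancel⟩ := hweil ε' s r u hε' hnf' hinj hsign hssemi hr hu hbal hsrel
    -- multiplicities
    have hcntP : ∀ x, s x = 1 → (cnt (nf D ε x) : ℤ) = m := by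
      intro x hx
      have h1 : 0 < a x := (hs1 x).1 hx
      have h2 : a x = m := by rw [has, hx, mul_one]
      have h3 := ha x
      rcases cnt_neg _ (hnf0 x) with h4 | h4
      · omega
      · omega
    have htP : ∀ k, t k ≠ 0 → ∃ x, s x = 1 ∧ t k = nf D ε x := by
      intro k hk
      rcases hT k with h | ⟨x, hx⟩
      · exact absurd h hk
      · refine ⟨x, ?_, hx⟩
        rw [hs1, ha]
        have h1 := cnt_pos k
        rw [hx] at h1
        rcases cnt_neg _ (hnf0 x) with h4 | h4 <;> omega
    let P : Type := {x : X // s x = 1}
    -- the number of elements of P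
    have hcardX : Fintype.card X = 2 * Fintype.card P := by
      have e1 : X ≃ P ⊕ P :=
        { toFun := fun x => if h : s x = 1 then Sum.inl ⟨x, h⟩ else
            Sum.inr ⟨c • x, by
              rw [hsign.odd]
              rcases hsign.sign x with h1 | h1
              · exact absurd h1 h
              · rw [h1]; rfl⟩
          invFun := Sum.elim (fun x => x.1) (fun x => c • x.1)
          left_inv := fun x => by
            by_cases h : s x = 1
            · simp [h]
            · simp [h, c_invol hS]
          right_inv := by
            rintro (⟨x, hx⟩ | ⟨x, hx⟩)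
            · simp [hx]
            · have h1 : ¬ s (c • x) = 1 := by
                rw [hsign.odd, hx]; decide
              simp [h1, c_invol hS] }
      rw [Fintype.card_congr e1, Fintype.card_sum]
      ring
    have hPne : Nonempty P := by
      rcases hsign.sign x0 with h | h
      · exact ⟨⟨x0, h⟩⟩
      · exact ⟨⟨c • x0, by rw [hsign.odd, h]; rfl⟩⟩
    have hPsum : ∀ g, ∑ x : P, nf D ε x.1 g = 0 := by
      intro g
      have h1 := hsrel g
      let ce : X ≃ X := ⟨fun x => c • x, fun x => c • x, c_invol hS, c_invol hS⟩
      have e1 : ∑ x, s x * nf D ε x g = ∑ x, (if s x = 1 then nf D ε x g else 0) -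
          ∑ x, (if s x = 1 then 0 else nf D ε x g) := by
        rw [← Finset.sum_sub_distrib]
        refine Finset.sum_congr rfl (fun x _ => ?_)
        rcases hsign.sign x with h | h
        · rw [if_pos h, if_pos h, h]; ring
        · have h' : ¬ s x = 1 := by rw [h]; decide
          rw [if_neg h', if_neg h', h]; ring
      have e2 : ∑ x, (if s x = 1 then 0 else nf D ε x g) =
          -∑ x, (if s x = 1 then nf D ε x g else 0) := by
        rw [← ce.sum_comp, ← Finset.sum_neg_distrib]
        refine Finset.sum_congr rfl (fun x _ => ?_)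
        change (if s (c • x) = 1 then 0 else nf D ε (c • x) g) = _
        rw [nf_c hS D hε, hsign.odd, Pi.neg_apply]
        rcases hsign.sign x with h | h
        · have h' : ¬ (-s x = 1) := by rw [h]; decide
          rw [if_neg h', if_pos h]
        · have h' : ¬ (s x = 1) := by rw [h]; decide
          rw [if_pos (by rw [h]; rfl), if_neg h', neg_zero]
      have e3 : ∑ x : P, nf D ε x.1 g = ∑ x, (if s x = 1 then nf D ε x g else 0) := by
        rw [← Finset.sum_filter]
        exact (Finset.sum_subtype (Finset.univ.filter fun x => s x = 1) (by simp)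
          (fun x => nf D ε x g)).symm
      rw [e3]
      rw [e1, e2] at h1
      omega
    have hgr : Fintype.card P + r = 4 ∨ Fintype.card P + r = 6 := by omega
    have hmm : (1:ℤ) ≤ m := hmpos
    -- representatives
    have hrep : ∀ x : P, ∃ k, t k = nf D ε x.1 := by
      intro x
      apply cnt_pos'
      have := hcntP x.1 x.2
      omega
    have finish : ∀ {ι : Type} [Fintype ι] [Nonempty ι] (u : ι → G → ℤ) (j : ι → κ)
        (_ : Injective j) (_ : ∀ i, t (j i) = u i) (_ : ∀ g, ∑ i, u i g = 0)
        (_ : Even (Fintype.card ι)) (_ : Q ι u), Q κ t := by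
      intro ι _ _ u j h1 h2 h3 h4 h5
      exact split hQ (fun f => f = 0 ∨ ∃ x : X, f = nf D ε x) t IH hT hsum hev u j h1 h2 h3 h4 h5
    by_cases hg : Even (Fintype.card P)
    · -- even case
      have hQP' : Q P (fun x => nf D ε x.1) := by
        apply of_sum_zero hQ
        obtain ⟨n, hn⟩ : ∃ n, r = 0 + 2 * n := by
          obtain ⟨q, hq⟩ := hg
          rcases hgr with h | h
          · exact ⟨2 - q, by omega⟩
          · exact ⟨3 - q, by omega⟩
        rcases Nat.eq_zero_or_pos r with h0 | h0
        · subst h0
          exact hQP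
        · have hC := hcancel h0
          subst hn
          exact cancel_many hQ hC _ 0 n hQP
      choose k hk using hrep
      refine finish (fun x : P => nf D ε x.1) k ?_ hk hPsum hg hQP'
      intro x y hxy
      apply Subtype.ext
      apply hinj
      rw [← hk x, ← hk y, hxy]
    · -- odd case
      rw [Nat.not_even_iff_odd] at hg
      obtain ⟨q, hq⟩ := hg
      have hr0 : 0 < r := by omega
      have hC := hcancel hr0
      have hQ1 : Q (P ⊕ Fin 1) (Sum.elim (fun x => nf D ε x.1) fun _ => 0) := by
        obtain ⟨n, hn⟩ : ∃ n, r = 1 + 2 * n := by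
          rcases hgr with h | h
          · exact ⟨1 - q, by omega⟩
          · exact ⟨2 - q, by omega⟩
        subst hn
        exact cancel_many hQ hC _ 1 n hQP
      by_cases hz : ∃ k0, t k0 = 0
      · obtain ⟨k0, hk0⟩ := hz
        choose k hk using hrep
        refine finish (Sum.elim (fun x : P => nf D ε x.1) fun _ : Fin 1 => 0)
          (Sum.elim k fun _ => k0) ?_ ?_ ?_ ?_ hQ1
        · rintro (x | x) (y | y) hxy
          · congr 1
            apply Subtype.ext
            apply hinj
            rw [← hk x, ← hk y]
            exact congrArg t hxy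
          · exfalso
            apply hnf0 x.1
            rw [← hk x, ← hk0]
            exact congrArg t hxy
          · exfalso
            apply hnf0 y.1
            rw [← hk y, ← hk0]
            exact (congrArg t hxy).symm
          · congr 1
            exact Subsingleton.elim _ _
        · rintro (x | x)
          · exact hk x
          · exact hk0
        · intro g
          rw [Fintype.sum_sum_type]
          simp only [Sum.elim_inl, Sum.elim_inr, Pi.zero_apply, Finset.sum_const_zero, add_zero]
          exact hPsum g
        · rw [Fintype.card_sum, Fintype.card_fin, hq]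
          exact ⟨q + 1, by ring⟩
      · -- no zeros: card κ = m * card P
        push Not at hz
        have hf : ∀ k, ∃ x : P, t k = nf D ε x.1 := by
          intro k
          obtain ⟨x, hx, hx'⟩ := htP k (hz k)
          exact ⟨⟨x, hx⟩, hx'⟩
        choose f hf using hf
        have hcardκ : (Fintype.card κ : ℤ) = Fintype.card P * m := by
          have h1 : Fintype.card κ = ∑ x : P, (Finset.univ.filter fun k => f k = x).card := by
            rw [← Finset.card_univ]
            exact Finset.card_eq_sum_card_fiberwise (fun k _ => Finset.mem_coe.2 (Finset.mem_univ _))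
          rw [h1]
          push_cast
          have h2 : ∀ x : P, ((Finset.univ.filter fun k => f k = x).card : ℤ) = m := by
            intro x
            rw [← hcntP x.1 x.2, hcnt]
            norm_cast
            congr 1
            ext k
            simp only [Finset.mem_filter, Finset.mem_univ, true_and]
            rw [hf k]
            constructor
            · intro h; rw [h]
            · intro h
              exact Subtype.ext (hinj h)
          rw [Finset.sum_congr rfl (fun x _ => h2 x)]
          simp
        have hm2 : 2 ≤ m := by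
          by_contra hlt
          have hm1 : m = 1 := by omega
          rw [hm1, mul_one] at hcardκ
          have h3 : Fintype.card κ = Fintype.card P := by exact_mod_cast hcardκ
          rw [h3, hq] at hev
          exact (Nat.not_even_iff_odd.2 ⟨q, rfl⟩) hev
        have hrep2 : ∀ x : P, ∃ k l, k ≠ l ∧ t k = nf D ε x.1 ∧ t l = nf D ε x.1 := by
          intro x
          have h1 : 1 < (Finset.univ.filter fun k => t k = nf D ε x.1).card := by
            have := hcntP x.1 x.2
            have h2 : (1:ℤ) < cnt (nf D ε x.1) := by omega
            exact_mod_cast h2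
          obtain ⟨k, hk, l, hl, hkl⟩ := Finset.one_lt_card.1 h1
          exact ⟨k, l, hkl, by simpa using hk, by simpa using hl⟩
        choose k l hkl hk hl using hrep2
        refine finish (Sum.elim (fun x : P => nf D ε x.1) (fun x : P => nf D ε x.1))
          (Sum.elim k l) ?_ ?_ ?_ ?_ (double hQ hC _ hQ1)
        · have hxy' : ∀ x y : P, nf D ε x.1 = nf D ε y.1 → x = y :=
            fun x y h => Subtype.ext (hinj h)
          rintro (x | x) (y | y) hxy
          · congr 1
            apply hxy'
            rw [← hk x, ← hk y]
            exact congrArg t hxy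
          · exfalso
            have h1 : x = y := by
              apply hxy'
              rw [← hk x, ← hl y]
              exact congrArg t hxy
            subst h1
            exact hkl x hxy
          · exfalso
            have h1 : x = y := by
              apply hxy'
              rw [← hl x, ← hk y]
              exact congrArg t hxy
            subst h1
            exact hkl x hxy.symm
          · congr 1
            apply hxy'
            rw [← hl x, ← hl y]
            exact congrArg t hxy
        · rintro (x | x)
          · exact hk x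
          · exact hl x
        · intro g
          rw [Fintype.sum_sum_type]
          simp only [Sum.elim_inl, Sum.elim_inr]
          rw [hPsum g, add_zero]
        · rw [Fintype.card_sum]
          exact ⟨_, rfl⟩

end Pool.Agent.W928.TA
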